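import Pool.Agent.Lib.MP_e685ae_an.Main

/-!
# The boundary spectrum of the inner factor of `θ'` equals that of `θ`
-/

namespace Pool.Agent.Results.MP_e685ae_an.SpectrumEq

open Metric Pool.Agent.Lib.MP_e685ae_an

/-- **Affirmative answer to Q1.** If `θ` is a nonconstant inner function whose derivative lies in
the Nevanlinna class and `I` is the inner factor of `θ'`, then `σ(I) = σ(θ)`. -/
theorem result (θ I : ℂ → ℂ) (hθ : IsInner θ)
    (hnonconst : ∃ z ∈ ball (0 : ℂ) 1, ∃ w ∈ ball (0 : ℂ) 1, θ z ≠ θ w)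
    (_hN : IsNevanlinna (deriv θ)) (hI : IsInnerFactorOf I (deriv θ)) :
    boundarySpectrum I = boundarySpectrum θ :=
  boundarySpectrum_eq hθ hnonconst hI

end Pool.Agent.Results.MP_e685ae_an.SpectrumEq
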